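import Mathlib

set_option autoImplicit false

namespace Pool.Agent.H607R3.PD

variable {Q : Type} [CommRing Q] {r b : ℕ}

/-- Extraction of a coefficient with the help of square zero elements. -/
theorem extract (y : Fin r → Q) (hy : ∀ i, y i * y i = 0) (A : Fin r → Q)
    (h : ∑ i, y i * A i = 0) (i : Fin r) : (∏ k, y k) * A i = 0 := by
  classical
  have h1 : (∏ k, y k) = (∏ k ∈ Finset.univ.erase i, y k) * y i :=
    (Finset.prod_erase_mul _ _ (Finset.mem_univ i)).symm
  have h2 : (∏ k ∈ Finset.univ.erase i, y k) * ∑ j, y j * A j = (∏ k, y k) * A i := by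
    rw [Finset.mul_sum, Finset.sum_eq_single i]
    · rw [h1]; ring
    · intro j _ hj
      rw [← Finset.prod_erase_mul (Finset.univ.erase i) y (Finset.mem_erase.2 ⟨hj, Finset.mem_univ j⟩)]
      linear_combination (∏ x ∈ (Finset.univ.erase i).erase j, y x) * A j * hy j
    · intro hi
      exact absurd (Finset.mem_univ i) hi
  rw [← h2, h, mul_zero]

theorem prod_mul_self (y : Fin r → Q) (hy : ∀ i, y i * y i = 0) (i : Fin r) :
    y i * (∏ k, y k) = 0 := by
  classical
  rw [← Finset.prod_erase_mul _ _ (Finset.mem_univ i)]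
  linear_combination (∏ k ∈ Finset.univ.erase i, y k) * hy i

/-- The relations of the counterexample in a ring where `T` is a nonzerodivisor. -/
structure Rel (T : Q) (x : Fin 4 → Fin r → Q) (w : Fin 2 → Fin r → Q) (m : Fin 6 → Q)
    (z : Fin r → Fin r → Q) (c : Fin r → Fin r → Fin b → Q) : Prop where
  hT : ∀ q, T * q = 0 → q = 0
  hx : ∀ k i, x k i * x k i = 0
  hw0 : ∀ i, ∑ j, x 1 j * z i j = T * w 0 i
  hw1 : ∀ i, ∑ j, x 3 j * z i j = T * w 1 i
  h0 : ∑ i, x 0 i * w 0 i = T * m 0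
  h1 : ∑ i, x 2 i * w 1 i = T * m 1
  h2 : ∑ i, x 0 i * x 2 i = T * m 2
  h3 : ∑ j, x 1 j * x 3 j = T * m 3
  h4 : m 2 * m 3 = T * m 4
  h5 : m 0 * m 1 = m 5 * m 4
  hc : ∀ l, ∑ i, ∑ j, z i j * c i j l = 0

variable {T : Q} {x : Fin 4 → Fin r → Q} {w : Fin 2 → Fin r → Q} {m : Fin 6 → Q}
    {z : Fin r → Fin r → Q} {c : Fin r → Fin r → Fin b → Q}

/-- The product of all the square zero variables. -/
def sg (x : Fin 4 → Fin r → Q) : Q := (∏ i, x 3 i) * ((∏ i, x 2 i) * ((∏ i, x 1 i) * ∏ i, x 0 i))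

namespace Rel

theorem x_sg (h : Rel T x w m z c) (k : Fin 4) (i : Fin r) : x k i * sg x = 0 := by
  have hk := prod_mul_self (x k) (h.hx k) i
  unfold sg
  fin_cases k
  · change x 0 i * _ = 0
    change x 0 i * (∏ i, x 0 i) = 0 at hk
    linear_combination (∏ i, x 3 i) * (∏ i, x 2 i) * (∏ i, x 1 i) * hk
  · change x 1 i * _ = 0
    change x 1 i * (∏ i, x 1 i) = 0 at hk
    linear_combination (∏ i, x 3 i) * (∏ i, x 2 i) * (∏ i, x 0 i) * hk
  · change x 2 i * _ = 0
    change x 2 i * (∏ i, x 2 i) = 0 at hk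
    linear_combination (∏ i, x 3 i) * (∏ i, x 1 i) * (∏ i, x 0 i) * hk
  · change x 3 i * _ = 0
    change x 3 i * (∏ i, x 3 i) = 0 at hk
    linear_combination (∏ i, x 2 i) * (∏ i, x 1 i) * (∏ i, x 0 i) * hk

theorem main (h : Rel T x w m z c) :
    (∑ i, x 0 i * ∑ j, x 1 j * z i j) * (∑ k, x 2 k * ∑ l, x 3 l * z k l) =
      T * m 5 * ((∑ i, x 0 i * x 2 i) * ∑ j, x 1 j * x 3 j) := by
  have e0 : ∑ i, x 0 i * ∑ j, x 1 j * z i j = T * (T * m 0) := by
    rw [← h.h0, Finset.mul_sum]
    refine Finset.sum_congr rfl fun i _ => ?_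
    rw [h.hw0]; ring
  have e1 : ∑ k, x 2 k * ∑ l, x 3 l * z k l = T * (T * m 1) := by
    rw [← h.h1, Finset.mul_sum]
    refine Finset.sum_congr rfl fun i _ => ?_
    rw [h.hw1]; ring
  rw [e0, e1, h.h2, h.h3]
  linear_combination T ^ 4 * h.h5 - T ^ 3 * m 5 * h.h4

theorem rel (h : Rel T x w m z c) (i j k l : Fin r) :
    sg x * (z i j * z k l - if k = i then (if l = j then T * m 5 else 0) else 0) = 0 := by
  classical
  have s0 : ∑ i, x 0 i * ((∑ j, x 1 j * z i j) * (∑ k, x 2 k * ∑ l, x 3 l * z k l) -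
      T * m 5 * x 2 i * ∑ j, x 1 j * x 3 j) = 0 := by
    have := h.main
    rw [← sub_eq_zero] at this
    refine Eq.trans ?_ this
    rw [Finset.sum_mul, Finset.sum_mul, Finset.mul_sum, ← Finset.sum_sub_distrib]
    refine Finset.sum_congr rfl fun i _ => ?_
    ring
  have s1 := extract (x 0) (h.hx 0) _ s0 i
  have s2 : ∑ j, x 1 j * ((∏ i, x 0 i) * (z i j * (∑ k, x 2 k * ∑ l, x 3 l * z k l) -
      T * m 5 * x 2 i * x 3 j)) = 0 := by
    refine Eq.trans ?_ s1
    rw [Finset.sum_mul, Finset.mul_sum, ← Finset.sum_sub_distrib, Finset.mul_sum]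
    refine Finset.sum_congr rfl fun j _ => ?_
    ring
  have s3 := extract (x 1) (h.hx 1) _ s2 j
  have s4 : ∑ k, x 2 k * ((∏ i, x 1 i) * ((∏ i, x 0 i) * (z i j * (∑ l, x 3 l * z k l) -
      if k = i then T * m 5 * x 3 j else 0))) = 0 := by
    refine Eq.trans ?_ s3
    have e : T * m 5 * x 2 i * x 3 j = ∑ k, x 2 k * (if k = i then T * m 5 * x 3 j else 0) := by
      rw [Finset.sum_eq_single i]
      · rw [if_pos rfl]; ring
      · intro k _ hk
        rw [if_neg hk, mul_zero]
      · intro hi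
        exact absurd (Finset.mem_univ i) hi
    rw [e, Finset.mul_sum, ← Finset.sum_sub_distrib, Finset.mul_sum, Finset.mul_sum]
    refine Finset.sum_congr rfl fun k _ => ?_
    ring
  have s5 := extract (x 2) (h.hx 2) _ s4 k
  have s6 : ∑ l, x 3 l * ((∏ i, x 2 i) * ((∏ i, x 1 i) * ((∏ i, x 0 i) * (z i j * z k l -
      if k = i then (if l = j then T * m 5 else 0) else 0)))) = 0 := by
    refine Eq.trans ?_ s5
    have e : (if k = i then T * m 5 * x 3 j else 0) =
        ∑ l, x 3 l * (if k = i then (if l = j then T * m 5 else 0) else 0) := by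
      split_ifs with hki
      · rw [Finset.sum_eq_single j]
        · rw [if_pos rfl]; ring
        · intro l _ hl
          rw [if_neg hl, mul_zero]
        · intro hi
          exact absurd (Finset.mem_univ j) hi
      · simp
    rw [e, Finset.mul_sum, ← Finset.sum_sub_distrib, Finset.mul_sum, Finset.mul_sum, Finset.mul_sum]
    refine Finset.sum_congr rfl fun l _ => ?_
    ring
  have s7 := extract (x 3) (h.hx 3) _ s6 l
  refine Eq.trans ?_ s7
  unfold sg
  ring

theorem zz (h : Rel T x w m z c) (i j : Fin r) : sg x * (z i j * z i j) = sg x * (T * m 5) := by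
  have := h.rel i j i j
  rw [if_pos rfl, if_pos rfl, mul_sub, sub_eq_zero] at this
  exact this

theorem zz0 (h : Rel T x w m z c) {i j k l : Fin r} (hne : ¬ (k = i ∧ l = j)) :
    sg x * (z i j * z k l) = 0 := by
  have := h.rel i j k l
  by_cases hk : k = i
  · rw [if_pos hk, if_neg (fun hl => hne ⟨hk, hl⟩), sub_zero] at this
    exact this
  · rw [if_neg hk, sub_zero] at this
    exact this

theorem z_kill (h : Rel T x w m z c) (hr : 2 ≤ r) (i j : Fin r) : z i j * (sg x * m 5) = 0 := by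
  obtain ⟨l, hl⟩ : ∃ l : Fin r, l ≠ j := by
    have : Nontrivial (Fin r) := Fin.nontrivial_iff_two_le.2 hr
    exact exists_ne j
  apply h.hT
  have h1 := h.zz i l
  have h2 := h.zz0 (i := i) (j := j) (k := i) (l := l) (fun hh => hl hh.2)
  linear_combination (-z i j) * h1 + z i l * h2

theorem m5_kill (h : Rel T x w m z c) (hr : 2 ≤ r) : m 5 * (sg x * m 5) = 0 := by
  have h0 : (0 : ℕ) < r := by omega
  apply h.hT
  have h1 := h.zz ⟨0, h0⟩ ⟨0, h0⟩
  have h2 := h.z_kill hr ⟨0, h0⟩ ⟨0, h0⟩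
  linear_combination (-m 5) * h1 + z ⟨0, h0⟩ ⟨0, h0⟩ * h2

theorem c_kill (h : Rel T x w m z c) (i j : Fin r) (l : Fin b) : c i j l * (sg x * m 5) = 0 := by
  apply h.hT
  have h1 : sg x * z i j * ∑ i', ∑ j', z i' j' * c i' j' l = 0 := by rw [h.hc, mul_zero]
  have h2 : sg x * z i j * ∑ i', ∑ j', z i' j' * c i' j' l = sg x * (z i j * z i j) * c i j l := by
    rw [Finset.mul_sum, Finset.sum_eq_single i, Finset.mul_sum, Finset.sum_eq_single j]
    · ring
    · intro j' _ hj'
      have := h.zz0 (i := i) (j := j) (k := i) (l := j') (fun hh => hj' hh.2)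
      linear_combination c i j' l * this
    · intro hi
      exact absurd (Finset.mem_univ j) hi
    · intro i' _ hi'
      rw [Finset.mul_sum]
      refine Finset.sum_eq_zero fun j' _ => ?_
      have := h.zz0 (i := i) (j := j) (k := i') (l := j') (fun hh => hi' hh.1)
      linear_combination c i' j' l * this
    · intro hi
      exact absurd (Finset.mem_univ i) hi
  rw [h2, h.zz] at h1
  linear_combination h1

theorem w_kill (h : Rel T x w m z c) (k : Fin 2) (i : Fin r) : w k i * (sg x * m 5) = 0 := by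
  apply h.hT
  fin_cases k
  · change T * (w 0 i * (sg x * m 5)) = 0
    have : T * (w 0 i * (sg x * m 5)) = (T * w 0 i) * sg x * m 5 := by ring
    rw [this, ← h.hw0, Finset.sum_mul, Finset.sum_mul]
    refine Finset.sum_eq_zero fun j _ => ?_
    linear_combination z i j * m 5 * h.x_sg 1 j
  · change T * (w 1 i * (sg x * m 5)) = 0
    have : T * (w 1 i * (sg x * m 5)) = (T * w 1 i) * sg x * m 5 := by ring
    rw [this, ← h.hw1, Finset.sum_mul, Finset.sum_mul]
    refine Finset.sum_eq_zero fun j _ => ?_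
    linear_combination z i j * m 5 * h.x_sg 3 j

theorem m_kill (h : Rel T x w m z c) (hr : 2 ≤ r) (k : Fin 6) : m k * (sg x * m 5) = 0 := by
  have k0 : m 0 * (sg x * m 5) = 0 := by
    apply h.hT
    have : T * (m 0 * (sg x * m 5)) = (T * m 0) * sg x * m 5 := by ring
    rw [this, ← h.h0, Finset.sum_mul, Finset.sum_mul]
    refine Finset.sum_eq_zero fun j _ => ?_
    linear_combination w 0 j * m 5 * h.x_sg 0 j
  have k1 : m 1 * (sg x * m 5) = 0 := by
    apply h.hT
    have : T * (m 1 * (sg x * m 5)) = (T * m 1) * sg x * m 5 := by ring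
    rw [this, ← h.h1, Finset.sum_mul, Finset.sum_mul]
    refine Finset.sum_eq_zero fun j _ => ?_
    linear_combination w 1 j * m 5 * h.x_sg 2 j
  have k2 : m 2 * (sg x * m 5) = 0 := by
    apply h.hT
    have : T * (m 2 * (sg x * m 5)) = (T * m 2) * sg x * m 5 := by ring
    rw [this, ← h.h2, Finset.sum_mul, Finset.sum_mul]
    refine Finset.sum_eq_zero fun j _ => ?_
    linear_combination x 2 j * m 5 * h.x_sg 0 j
  have k3 : m 3 * (sg x * m 5) = 0 := by
    apply h.hT
    have : T * (m 3 * (sg x * m 5)) = (T * m 3) * sg x * m 5 := by ring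
    rw [this, ← h.h3, Finset.sum_mul, Finset.sum_mul]
    refine Finset.sum_eq_zero fun j _ => ?_
    linear_combination x 3 j * m 5 * h.x_sg 1 j
  have k4 : m 4 * (sg x * m 5) = 0 := by
    apply h.hT
    linear_combination (-(sg x * m 5)) * h.h4 + m 3 * k2
  fin_cases k
  · exact k0
  · exact k1
  · exact k2
  · exact k3
  · exact k4
  · exact h.m5_kill hr

end Rel

end Pool.Agent.H607R3.PD
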