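import Mathlib

set_option autoImplicit false

open CategoryTheory Abelian RingTheory.Sequence

namespace Pool.Agent.H607R3.PD

variable {R : Type} [CommRing R]

theorem smul_top_lt {F : Type} [AddCommGroup F] [Module R F] [Module.Free R F] [Nontrivial F]
    {I : Ideal R} (hI : I ≠ ⊤) : I • (⊤ : Submodule R F) < ⊤ := by
  refine lt_of_le_of_ne le_top ?_
  intro h
  apply hI
  rw [Ideal.eq_top_iff_one]
  obtain ⟨i⟩ : Nonempty (Module.Free.ChooseBasisIndex R F) := by
    by_contra hcon
    rw [not_nonempty_iff] at hcon
    have : Subsingleton F := (Module.Free.chooseBasis R F).repr.toEquiv.subsingleton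
    exact not_subsingleton F this
  have key : (I • (⊤ : Submodule R F)) ≤ Submodule.comap ((Module.Free.chooseBasis R F).coord i)
      (I : Submodule R R) := by
    rw [Submodule.smul_le]
    intro r hr n _
    rw [Submodule.mem_comap, map_smul, smul_eq_mul]
    exact I.mul_mem_right _ hr
  have h1 : (Module.Free.chooseBasis R F) i ∈ (I • (⊤ : Submodule R F)) := by
    rw [h]; trivial
  have h2 := key h1
  rw [Submodule.mem_comap] at h2
  simpa using h2

theorem isRegular_free {F : Type} [AddCommGroup F] [Module R F] [Module.Free R F] [Nontrivial F]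
    {rs : List R} (reg : IsRegular R rs) : IsRegular F rs := by
  have hI : Ideal.ofList rs ≠ ⊤ := by
    intro h
    apply reg.top_ne_smul
    rw [h]; simp
  refine ⟨?_, (smul_top_lt hI).ne'⟩
  have h1 : IsWeaklyRegular (TensorProduct R F R) rs := reg.1.isWeaklyRegular_lTensor
  exact ((TensorProduct.rid R F).isWeaklyRegular_congr rs).1 h1

theorem ext_free [IsNoetherianRing R] {rs : List R} (reg : IsRegular R rs)
    (F : ModuleCat.{0} R) [Module.Free R F] [Module.Finite R F] [Nontrivial F] :
    ∀ i < rs.length, Subsingleton (Ext (ModuleCat.of R (R ⧸ Ideal.ofList rs)) F i) := by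
  have hI : Ideal.ofList rs ≠ ⊤ := by
    intro h
    apply reg.top_ne_smul
    rw [h]; simp
  refine ModuleCat.subsingleton_ext_of_exists_isRegular (Ideal.ofList rs)
    (ModuleCat.of R (R ⧸ Ideal.ofList rs)) ?_ F (smul_top_lt hI) rs ?_ (isRegular_free reg)
  · have : Module.support R (R ⧸ Ideal.ofList rs) = PrimeSpectrum.zeroLocus (Ideal.ofList rs) := by
      rw [Module.support_eq_zeroLocus, Ideal.annihilator_quotient]
    exact this.subset
  · intro r hr
    exact Ideal.subset_span hr

theorem ext_vanish [IsNoetherianRing R] {rs : List R} (reg : IsRegular R rs) (d : ℕ) :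
    ∀ (M : ModuleCat.{0} R) [Module.Finite R M] [HasProjectiveDimensionLE M d] (i : ℕ),
      i + d < rs.length → Subsingleton (Ext (ModuleCat.of R (R ⧸ Ideal.ofList rs)) M i) := by
  have hnt : Nontrivial R := reg.nontrivial
  induction d with
  | zero =>
    intro M _ hM i hi
    obtain ⟨P, _, _, _, _, f, surjf⟩ := Module.exists_finite_presentation R M
    have hP : Projective M := by
      rw [projective_iff_hasProjectiveDimensionLT_one]
      exact hM
    have hP' : Module.Projective R M := (IsProjective.iff_projective M).2 hP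
    set g : (P × R) →ₗ[R] M := f.comp (LinearMap.fst R P R) with hg
    have surjg : Function.Surjective g := by
      intro y
      obtain ⟨p, hp⟩ := surjf y
      exact ⟨(p, 0), by simpa [hg] using hp⟩
    obtain ⟨s, hs⟩ := Module.projective_lifting_property g LinearMap.id surjg
    have hF := ext_free reg (ModuleCat.of R (P × R)) i (by omega)
    have hcomp : (ModuleCat.ofHom s : M ⟶ ModuleCat.of R (P × R)) ≫ ModuleCat.ofHom g = 𝟙 M := by
      ext y
      have := LinearMap.congr_fun hs y
      simpa using this
    constructor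
    intro e1 e2
    have key : ∀ e : Ext (ModuleCat.of R (R ⧸ Ideal.ofList rs)) M i, e = 0 := by
      intro e
      have h1 : e = (e.comp (Ext.mk₀ (ModuleCat.ofHom s : M ⟶ ModuleCat.of R (P × R)))
          (add_zero i)).comp (Ext.mk₀ (ModuleCat.ofHom g : ModuleCat.of R (P × R) ⟶ M))
          (add_zero i) := by
        rw [Ext.comp_assoc_of_third_deg_zero, Ext.mk₀_comp_mk₀, hcomp, Ext.comp_mk₀_id]
      rw [h1, Subsingleton.elim (e.comp (Ext.mk₀ (ModuleCat.ofHom s : M ⟶ ModuleCat.of R (P × R)))
          (add_zero i)) 0, Ext.zero_comp]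
    rw [key e1, key e2]
  | succ d ih =>
    intro M _ hM i hi
    obtain ⟨P, _, _, _, _, f, surjf⟩ := Module.exists_finite_presentation R M
    set g : (P × R) →ₗ[R] M := f.comp (LinearMap.fst R P R) with hg
    have surjg : Function.Surjective g := by
      intro y
      obtain ⟨p, hp⟩ := surjf y
      exact ⟨(p, 0), by simpa [hg] using hp⟩
    let S : ShortComplex (ModuleCat.{0} R) := g.shortComplexKer
    have hS : S.ShortExact := LinearMap.shortExact_shortComplexKer surjg
    have hK : HasProjectiveDimensionLE S.X₁ d := by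
      have hX2 : Projective S.X₂ := by
        rw [← IsProjective.iff_projective]
        infer_instance
      exact (hS.hasProjectiveDimensionLT_X₃_iff d hX2).1 hM
    have hfin : Module.Finite R S.X₁ := by
      change Module.Finite R (LinearMap.ker g)
      infer_instance
    have h1 : Subsingleton (Ext (ModuleCat.of R (R ⧸ Ideal.ofList rs)) S.X₂ i) :=
      ext_free reg (ModuleCat.of R (P × R)) i (by omega)
    have h2 : Subsingleton (Ext (ModuleCat.of R (R ⧸ Ideal.ofList rs)) S.X₁ (i + 1)) :=
      ih S.X₁ (i + 1) (by omega)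
    have zero1 := AddCommGrpCat.isZero_of_iff_subsingleton.mpr h1
    have zero2 := AddCommGrpCat.isZero_of_iff_subsingleton.mpr h2
    exact AddCommGrpCat.subsingleton_of_isZero <| ShortComplex.Exact.isZero_of_both_zeros
      ((Ext.covariant_sequence_exact₃' (ModuleCat.of R (R ⧸ Ideal.ofList rs)) hS) i (i + 1) rfl)
      (zero1.eq_zero_of_src _) (zero2.eq_zero_of_tgt _)

/-- If a nonzero element of a finite module `M` is killed by a regular sequence of length `n`, then
the projective dimension of `M` is at least `n`. -/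
theorem pd_lower [IsNoetherianRing R] {rs : List R} (reg : IsRegular R rs)
    (M : ModuleCat.{0} R) [Module.Finite R M] (d : ℕ) [HasProjectiveDimensionLE M d]
    (hd : d < rs.length) (s : M) (hs : ∀ r ∈ rs, r • s = 0) : s = 0 := by
  have h := ext_vanish reg d M 0 (by omega)
  have h1 : Subsingleton ((ModuleCat.of R (R ⧸ Ideal.ofList rs)) ⟶ M) :=
    Ext.addEquiv₀.symm.subsingleton
  have hle : Ideal.ofList rs ≤ LinearMap.ker (LinearMap.toSpanSingleton R M s) := by
    rw [Ideal.ofList, Ideal.span_le]
    intro r hr
    rw [SetLike.mem_coe, LinearMap.mem_ker, LinearMap.toSpanSingleton_apply]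
    exact hs r hr
  have h2 : (ModuleCat.ofHom ((Ideal.ofList rs).liftQ (LinearMap.toSpanSingleton R M s) hle) :
      (ModuleCat.of R (R ⧸ Ideal.ofList rs)) ⟶ M) = 0 := Subsingleton.elim _ _
  have h3 : ((Ideal.ofList rs).liftQ (LinearMap.toSpanSingleton R M s) hle)
      (Submodule.Quotient.mk (1 : R)) = 0 :=
    congrArg (fun f : (ModuleCat.of R (R ⧸ Ideal.ofList rs)) ⟶ M =>
      f.hom (Submodule.Quotient.mk (1 : R))) h2
  rwa [Submodule.liftQ_apply, LinearMap.toSpanSingleton_apply, one_smul] at h3

end Pool.Agent.H607R3.PD
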