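import Pool.Agent.H607R3.PD.Nonmem
import Pool.Agent.H607R3.PD.PdLower

set_option autoImplicit false

open MvPolynomial CategoryTheory RingTheory.Sequence

namespace Pool.Agent.H607R3.PD

/-- Distinct variables form a regular sequence. -/
theorem isRegular_vars {k : Type} [Field k] {σ : Type} (l : List σ) (hl : l.Nodup) :
    IsRegular (MvPolynomial σ k) (l.map (X : σ → MvPolynomial σ k)) := by
  have hspan : ∀ l' : List σ, Ideal.ofList (l'.map (X : σ → MvPolynomial σ k)) =
      Ideal.span ((X : σ → MvPolynomial σ k) '' {a | a ∈ l'}) := by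
    intro l'
    rw [Ideal.ofList]
    congr 1
    ext p
    simp
  refine ⟨⟨?_⟩, ?_⟩
  · intro i hi
    rw [isSMulRegular_quotient_iff_mem_of_smul_mem]
    intro p hp
    rw [smul_eq_mul, Ideal.mul_top] at hp ⊢
    rw [← List.map_take, hspan] at hp ⊢
    rw [List.length_map] at hi
    rw [List.getElem_map] at hp
    rw [mem_ideal_span_X_image] at hp ⊢
    intro m hm
    classical
    have h1 : m + Finsupp.single l[i] 1 ∈ ((X l[i] : MvPolynomial σ k) • p).support := by
      rw [mem_support_iff, smul_eq_mul, mul_comm, coeff_mul_X]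
      exact mem_support_iff.1 hm
    obtain ⟨a, ha, ha2⟩ := hp _ h1
    refine ⟨a, ha, ?_⟩
    have hne : l[i] ≠ a := by
      intro h
      subst h
      have h3 : l[i] ∈ l.take i := ha
      rw [List.mem_take_iff_getElem] at h3
      obtain ⟨j, hj, hj2⟩ := h3
      have := (List.Nodup.getElem_inj_iff hl).1 hj2
      omega
    rw [Finsupp.add_apply, Finsupp.single_eq_of_ne hne.symm, add_zero] at ha2
    exact ha2
  · intro h
    rw [smul_eq_mul, Ideal.mul_top, hspan] at h
    have h1 : (1 : MvPolynomial σ k) ∈ Ideal.span ((X : σ → MvPolynomial σ k) '' {a | a ∈ l}) := by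
      rw [← h]; trivial
    rw [mem_ideal_span_X_image] at h1
    obtain ⟨a, _, ha⟩ := h1 0 (by
      rw [mem_support_iff]
      simp)
    simp at ha

theorem big_pd {k : Type} [Field k] {r b m : ℕ} (hr : 2 ≤ r) (e : V r b ≃ Fin m)
    (I : Ideal (MvPolynomial (Fin m) k))
    (hI : I = Ideal.span (Set.range (gen (fun a : V r b => (X (e a) : MvPolynomial (Fin m) k)))))
    (d : ℕ) (hd : d < Fintype.card (NT r b)) :
    ¬ HasProjectiveDimensionLE
        (ModuleCat.of (MvPolynomial (Fin m) k) (MvPolynomial (Fin m) k ⧸ I)) d := by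
  intro hpd
  set v : V r b → MvPolynomial (Fin m) k := fun a => X (e a) with hv
  have hgen : ∀ g, gen v g ∈ I := by
    intro g
    rw [hI]
    exact Ideal.subset_span ⟨g, rfl⟩
  obtain ⟨N, hN⟩ := exists_socle hr v I hgen
  set s := vT v ^ N * (sg (vx v) * vm v 5) with hs
  have h0 : 0 < r := by omega
  have hsI : s ∉ I := by
    intro hmem
    set φ : MvPolynomial (Fin m) k →+* MvPolynomial (Tau r) k :=
      (aeval (fun i : Fin m => psi0 (k := k) b (⟨0, h0⟩, ⟨0, h0⟩) (e.symm i))).toRingHom with hφ
    have hφv : ∀ a, φ (v a) = psi0 (k := k) b (⟨0, h0⟩, ⟨0, h0⟩) a := by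
      intro a
      simp [hφ, hv]
    have hle : I ≤ (JL r k).comap φ := by
      rw [hI, Ideal.span_le]
      rintro _ ⟨g, rfl⟩
      rw [SetLike.mem_coe, Ideal.mem_comap, gen_map]
      have : (fun a => φ (v a)) = psi0 (k := k) b (⟨0, h0⟩, ⟨0, h0⟩) := funext hφv
      rw [this]
      exact gen_psi0 _ g
    have h1 := hle hmem
    rw [Ideal.mem_comap, hs, map_mul, map_mul, map_pow] at h1
    have e1 : φ (vT v) = 1 := by
      rw [vT, hφv]; rfl
    have e2 : φ (vm v 5) = X (Sum.inr (⟨0, h0⟩, ⟨0, h0⟩)) * X (Sum.inr (⟨0, h0⟩, ⟨0, h0⟩)) := by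
      rw [vm, hφv]
      exact pm5 _
    have e3 : φ (sg (vx v)) = sg (fun κ i => (X (Sum.inl (κ, i)) : MvPolynomial (Tau r) k)) := by
      have e4 : ∀ κ i, φ (vx v κ i) = X (Sum.inl (κ, i)) := by
        intro κ i
        rw [vx, hφv]; rfl
      simp only [sg, map_mul, map_prod, e4]
    rw [e1, e2, e3, one_pow, one_mul] at h1
    exact socle_not_mem _ h1
  set rs : List (MvPolynomial (Fin m) k) :=
    (((Finset.univ : Finset (NT r b)).toList.map (fun a => e (some a))).map X) with hrs
  have hreg : IsRegular (MvPolynomial (Fin m) k) rs := by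
    apply isRegular_vars
    refine List.Nodup.map ?_ (Finset.nodup_toList _)
    intro a a' h
    exact Option.some_injective _ (e.injective h)
  have hlen : rs.length = Fintype.card (NT r b) := by
    rw [hrs, List.length_map, List.length_map, Finset.length_toList, Finset.card_univ]
  have h2 := pd_lower hreg
    (ModuleCat.of (MvPolynomial (Fin m) k) (MvPolynomial (Fin m) k ⧸ I)) d (by rw [hlen]; exact hd)
    (Ideal.Quotient.mk I s) (by
      intro p hp
      rw [hrs, List.mem_map] at hp
      obtain ⟨i, hi, rfl⟩ := hp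
      rw [List.mem_map] at hi
      obtain ⟨a, _, rfl⟩ := hi
      have h3 := hN a
      have h4 : (X (e (some a)) : MvPolynomial (Fin m) k) • (Ideal.Quotient.mk I s) =
          Ideal.Quotient.mk I (X (e (some a)) * s) := rfl
      rw [h4, Ideal.Quotient.eq_zero_iff_mem]
      exact h3)
  exact hsI (Ideal.Quotient.eq_zero_iff_mem.1 h2)

theorem height_le {k : Type} [Field k] {m n : ℕ} (f : Fin n → MvPolynomial (Fin m) k)
    (hne : Ideal.span (Set.range f) ≠ ⊤) : (Ideal.span (Set.range f)).height ≤ (n : ℕ∞) := by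
  refine (Ideal.height_le_spanFinrank _ hne).trans ?_
  have h1 : (Submodule.span (MvPolynomial (Fin m) k) (Set.range f)).spanFinrank ≤
      (Set.range f).ncard := Submodule.spanFinrank_span_le_ncard_of_finite (Set.finite_range f)
  have h2 : (Set.range f).ncard ≤ n := by
    rw [← Set.image_univ]
    refine (Set.ncard_image_le Set.finite_univ).trans ?_
    rw [Set.ncard_univ, Nat.card_eq_fintype_card, Fintype.card_fin]
  have h3 : (Ideal.span (Set.range f)).spanFinrank ≤ n := h1.trans h2
  exact_mod_cast h3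

/-- The disproof. -/
theorem disproof :
    ¬ (∀ (k : Type) [Field k] (m n h : ℕ) (f : Fin n → MvPolynomial (Fin m) k),
      (∀ i, (f i).IsHomogeneous 2) →
      (Ideal.span (Set.range f)).height = (h : ℕ∞) →
      CategoryTheory.HasProjectiveDimensionLE
        (ModuleCat.of (MvPolynomial (Fin m) k)
          (MvPolynomial (Fin m) k ⧸ Ideal.span (Set.range f)))
        (h * (n - h + 1))) := by
  intro H
  have hcardV : Fintype.card (V 8 48) = 3191 := by
    simp [V, NT]
  have hcardNT : Fintype.card (NT 8 48) = 3190 := by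
    simp [NT]
  have hcardG : Fintype.card (G 8 48) = 102 := by
    simp [G]
  let e : V 8 48 ≃ Fin 3191 := Fintype.equivFinOfCardEq hcardV
  let e' : G 8 48 ≃ Fin 102 := Fintype.equivFinOfCardEq hcardG
  set f : Fin 102 → MvPolynomial (Fin 3191) ℚ :=
    fun i => gen (fun a : V 8 48 => (X (e a) : MvPolynomial (Fin 3191) ℚ)) (e'.symm i) with hf
  have hrange : Set.range f =
      Set.range (gen (fun a : V 8 48 => (X (e a) : MvPolynomial (Fin 3191) ℚ))) := by
    ext p
    constructor
    · rintro ⟨i, rfl⟩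
      exact ⟨e'.symm i, rfl⟩
    · rintro ⟨g, rfl⟩
      exact ⟨e' g, by rw [hf]; simp⟩
  have hhom : ∀ i, (f i).IsHomogeneous 2 := fun i => gen_homogeneous e _
  have hne : Ideal.span (Set.range f) ≠ ⊤ := by
    intro h
    have h1 : (1 : MvPolynomial (Fin 3191) ℚ) ∈ Ideal.span (Set.range f) := by rw [h]; trivial
    have h2 : Ideal.span (Set.range f) ≤ RingHom.ker
        (constantCoeff : MvPolynomial (Fin 3191) ℚ →+* ℚ) := by
      rw [Ideal.span_le]
      rintro _ ⟨i, rfl⟩
      rw [SetLike.mem_coe, RingHom.mem_ker, constantCoeff_eq]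
      by_contra hcon
      have := (hhom i) hcon
      simp at this
    have h3 := h2 h1
    rw [RingHom.mem_ker, map_one] at h3
    exact one_ne_zero h3
  have hle := height_le f hne
  obtain ⟨h, hh⟩ : ∃ h : ℕ, (Ideal.span (Set.range f)).height = (h : ℕ∞) := by
    refine ⟨(Ideal.span (Set.range f)).height.toNat, ?_⟩
    rw [ENat.natCast_toNat]
    intro htop
    rw [htop] at hle
    exact absurd hle (by simp)
  have hh2 : h ≤ 102 := by
    rw [hh] at hle
    exact_mod_cast hle
  refine big_pd (by norm_num) e _ (congrArg Ideal.span hrange) (h * (102 - h + 1)) ?_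
    (H ℚ 3191 102 h f hhom hh)
  rw [hcardNT]
  interval_cases h <;> norm_num

end Pool.Agent.H607R3.PD
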