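import Pool.Agent.H607R3.PD.Abs

set_option autoImplicit false

open MvPolynomial

namespace Pool.Agent.H607R3.PD

/-- The variables different from the homogenising variable. -/
abbrev NT (r b : ℕ) : Type :=
  (Fin 4 × Fin r) ⊕ (Fin 2 × Fin r) ⊕ Fin 6 ⊕ (Fin r × Fin r) ⊕ (Fin r × Fin r × Fin b)

/-- All variables. -/
abbrev V (r b : ℕ) : Type := Option (NT r b)

/-- The index type of the generators. -/
abbrev G (r b : ℕ) : Type := (Fin 4 × Fin r) ⊕ (Fin 2 × Fin r) ⊕ Fin 6 ⊕ Fin b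

variable {r b : ℕ} {Q : Type} [CommRing Q]

/-- the homogenising variable -/
def vT (v : V r b → Q) : Q := v none

/-- the square zero variables -/
def vx (v : V r b → Q) (k : Fin 4) (i : Fin r) : Q := v (some (Sum.inl (k, i)))

/-- the first gates -/
def vw (v : V r b → Q) (k : Fin 2) (i : Fin r) : Q := v (some (Sum.inr (Sum.inl (k, i))))

/-- the second gates -/
def vm (v : V r b → Q) (k : Fin 6) : Q := v (some (Sum.inr (Sum.inr (Sum.inl k))))

/-- the square matrix of variables -/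
def vz (v : V r b → Q) (i j : Fin r) : Q := v (some (Sum.inr (Sum.inr (Sum.inr (Sum.inl (i, j))))))

/-- the last variables -/
def vc (v : V r b → Q) (i j : Fin r) (l : Fin b) : Q :=
  v (some (Sum.inr (Sum.inr (Sum.inr (Sum.inr (i, j, l))))))

/-- the odd index -/
def od (k : Fin 2) : Fin 4 := if k = 0 then 1 else 3

/-- The quadrics, evaluated at `v`. -/
def gen (v : V r b → Q) : G r b → Q
  | Sum.inl (k, i) => vx v k i * vx v k i
  | Sum.inr (Sum.inl (k, i)) => ∑ j, vx v (od k) j * vz v i j - vT v * vw v k i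
  | Sum.inr (Sum.inr (Sum.inl k)) =>
      if k = 0 then ∑ i, vx v 0 i * vw v 0 i - vT v * vm v 0
      else if k = 1 then ∑ i, vx v 2 i * vw v 1 i - vT v * vm v 1
      else if k = 2 then ∑ i, vx v 0 i * vx v 2 i - vT v * vm v 2
      else if k = 3 then ∑ i, vx v 1 i * vx v 3 i - vT v * vm v 3
      else if k = 4 then vm v 2 * vm v 3 - vT v * vm v 4
      else vm v 0 * vm v 1 - vm v 5 * vm v 4
  | Sum.inr (Sum.inr (Sum.inr l)) => ∑ i, ∑ j, vz v i j * vc v i j l

theorem gen_map {Q' : Type} [CommRing Q'] (φ : Q →+* Q') (v : V r b → Q) (g : G r b) :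
    φ (gen v g) = gen (fun a => φ (v a)) g := by
  rcases g with ⟨k, i⟩ | ⟨k, i⟩ | k | l
  · simp [gen, vx]
  · simp [gen, vx, vz, vw, vT]
  · simp only [gen]
    split_ifs <;> simp [vx, vw, vT, vm]
  · simp [gen, vz, vc]

theorem rel_of_gen {v : V r b → Q} (hT : ∀ q, vT v * q = 0 → q = 0) (h : ∀ g, gen v g = 0) :
    Rel (vT v) (vx v) (vw v) (vm v) (vz v) (vc v) where
  hT := hT
  hx := fun k i => h (Sum.inl (k, i))
  hw0 := fun i => sub_eq_zero.1 (h (Sum.inr (Sum.inl (0, i))))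
  hw1 := fun i => sub_eq_zero.1 (h (Sum.inr (Sum.inl (1, i))))
  h0 := sub_eq_zero.1 (h (Sum.inr (Sum.inr (Sum.inl 0))))
  h1 := sub_eq_zero.1 (h (Sum.inr (Sum.inr (Sum.inl 1))))
  h2 := sub_eq_zero.1 (h (Sum.inr (Sum.inr (Sum.inl 2))))
  h3 := sub_eq_zero.1 (h (Sum.inr (Sum.inr (Sum.inl 3))))
  h4 := sub_eq_zero.1 (h (Sum.inr (Sum.inr (Sum.inl 4))))
  h5 := sub_eq_zero.1 (h (Sum.inr (Sum.inr (Sum.inl 5))))
  hc := fun l => h (Sum.inr (Sum.inr (Sum.inr l)))

theorem gen_homogeneous {k : Type} [Field k] {m : ℕ} (e : V r b → Fin m) (g : G r b) :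
    (gen (fun a => (X (e a) : MvPolynomial (Fin m) k)) g).IsHomogeneous 2 := by
  have hX : ∀ a a' : V r b, ((X (e a) : MvPolynomial (Fin m) k) * X (e a')).IsHomogeneous 2 :=
    fun a a' => (isHomogeneous_X k (e a)).mul (isHomogeneous_X k (e a'))
  rcases g with ⟨k, i⟩ | ⟨k, i⟩ | k | l
  · exact hX _ _
  · exact (IsHomogeneous.sum _ _ _ fun j _ => hX _ _).sub (hX _ _)
  · simp only [gen]
    split_ifs
    · exact (IsHomogeneous.sum _ _ _ fun j _ => hX _ _).sub (hX _ _)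
    · exact (IsHomogeneous.sum _ _ _ fun j _ => hX _ _).sub (hX _ _)
    · exact (IsHomogeneous.sum _ _ _ fun j _ => hX _ _).sub (hX _ _)
    · exact (IsHomogeneous.sum _ _ _ fun j _ => hX _ _).sub (hX _ _)
    · exact (hX _ _).sub (hX _ _)
    · exact (hX _ _).sub (hX _ _)
  · exact IsHomogeneous.sum _ _ _ fun i _ => IsHomogeneous.sum _ _ _ fun j _ => hX _ _

/-- The saturation of an ideal with respect to `T`. -/
def sat (I : Ideal Q) (T : Q) : Ideal Q where
  carrier := {g | ∃ n : ℕ, T ^ n * g ∈ I}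
  add_mem' := by
    rintro a b ⟨n, hn⟩ ⟨m, hm⟩
    refine ⟨n + m, ?_⟩
    have : T ^ (n + m) * (a + b) = T ^ m * (T ^ n * a) + T ^ n * (T ^ m * b) := by ring
    rw [this]
    exact I.add_mem (I.mul_mem_left _ hn) (I.mul_mem_left _ hm)
  zero_mem' := ⟨0, by simp⟩
  smul_mem' := by
    rintro c a ⟨n, hn⟩
    refine ⟨n, ?_⟩
    have : T ^ n * (c • a) = c * (T ^ n * a) := by rw [smul_eq_mul]; ring
    rw [this]
    exact I.mul_mem_left _ hn

theorem mem_sat {I : Ideal Q} {T g : Q} : g ∈ sat I T ↔ ∃ n : ℕ, T ^ n * g ∈ I := Iff.rfl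

/-- The socle element modulo the quadrics. -/
theorem exists_socle (hr : 2 ≤ r) (v : V r b → Q) (I : Ideal Q) (hI : ∀ g, gen v g ∈ I) :
    ∃ N : ℕ, ∀ a : NT r b, v (some a) * (vT v ^ N * (sg (vx v) * vm v 5)) ∈ I := by
  classical
  have hle : I ≤ sat I (vT v) := fun g hg => ⟨0, by simpa using hg⟩
  set J := sat I (vT v) with hJ
  set φ := Ideal.Quotient.mk J with hφ
  have hrel : Rel (vT (fun a => φ (v a))) (vx (fun a => φ (v a))) (vw (fun a => φ (v a)))
      (vm (fun a => φ (v a))) (vz (fun a => φ (v a))) (vc (fun a => φ (v a))) := by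
    apply rel_of_gen
    · intro q hq
      obtain ⟨g, rfl⟩ := Ideal.Quotient.mk_surjective q
      have h1 : φ (vT v * g) = 0 := by rw [map_mul]; exact hq
      rw [hφ, Ideal.Quotient.eq_zero_iff_mem] at h1
      obtain ⟨n, hn⟩ := h1
      rw [← hφ, Ideal.Quotient.eq_zero_iff_mem]
      refine ⟨n + 1, ?_⟩
      have : vT v ^ (n + 1) * g = vT v ^ n * (vT v * g) := by ring
      rw [this]; exact hn
    · intro g
      rw [← gen_map φ v g, hφ, Ideal.Quotient.eq_zero_iff_mem]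
      exact hle (hI g)
  have hkill : ∀ a : NT r b, v (some a) * (sg (vx v) * vm v 5) ∈ J := by
    intro a
    rw [← Ideal.Quotient.eq_zero_iff_mem, map_mul, map_mul]
    have hsg : φ (sg (vx v)) = sg (vx (fun a => φ (v a))) := by
      simp [sg, vx]
    change φ (v (some a)) * (φ (sg (vx v)) * φ (vm v 5)) = 0
    rw [hsg]
    rcases a with ⟨k, i⟩ | ⟨k, i⟩ | k | ⟨i, j⟩ | ⟨i, j, l⟩
    · have := hrel.x_sg k i
      change φ (v (some (Sum.inl (k, i)))) * sg (vx (fun a => φ (v a))) = 0 at this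
      rw [← mul_assoc, this, zero_mul]
    · exact hrel.w_kill k i
    · exact hrel.m_kill hr k
    · exact hrel.z_kill hr i j
    · exact hrel.c_kill i j l
  choose n hn using hkill
  refine ⟨∑ a, n a, fun a => ?_⟩
  have h1 : ∑ a, n a = (∑ a ∈ Finset.univ.erase a, n a) + n a :=
    (Finset.sum_erase_add _ _ (Finset.mem_univ a)).symm
  have h2 : v (some a) * (vT v ^ (∑ a, n a) * (sg (vx v) * vm v 5)) =
      vT v ^ (∑ a ∈ Finset.univ.erase a, n a) *
        (vT v ^ n a * (v (some a) * (sg (vx v) * vm v 5))) := by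
    rw [h1, pow_add]; ring
  rw [h2]
  exact I.mul_mem_left _ (hn a)

end Pool.Agent.H607R3.PD
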