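import Pool.Agent.H607R3.PD.Gens

set_option autoImplicit false

open MvPolynomial

namespace Pool.Agent.H607R3.PD

variable {r : ℕ} {k : Type} [Field k]

/-- the index type of the model ring -/
abbrev Tau (r : ℕ) : Type := (Fin 4 × Fin r) ⊕ (Fin r × Fin r)

/-- the exponent of the product of the square zero variables -/
noncomputable def M0 (r : ℕ) : Tau r →₀ ℕ :=
  Finsupp.equivFunOnFinite.symm fun t => Sum.elim (fun _ => 1) (fun _ => 0) t

/-- the exponent of the socle monomials -/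
noncomputable def M2 (p : Fin r × Fin r) : Tau r →₀ ℕ :=
  Finsupp.equivFunOnFinite.symm fun t => Sum.elim (fun _ => 1) (fun q => if q = p then 2 else 0) t

theorem M0_inl (a : Fin 4 × Fin r) : M0 r (Sum.inl a) = 1 := rfl
theorem M0_inr (q : Fin r × Fin r) : M0 r (Sum.inr q) = 0 := rfl
theorem M2_inl (p : Fin r × Fin r) (a : Fin 4 × Fin r) : M2 p (Sum.inl a) = 1 := rfl
theorem M2_inr (p q : Fin r × Fin r) : M2 p (Sum.inr q) = if q = p then 2 else 0 := rfl

/-- the functional -/
noncomputable def lam (f : MvPolynomial (Tau r) k) : k := ∑ p, coeff (M2 p) f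

theorem lam_add (f g : MvPolynomial (Tau r) k) : lam (f + g) = lam f + lam g := by
  simp [lam, Finset.sum_add_distrib]

theorem lam_sub (f g : MvPolynomial (Tau r) k) : lam (f - g) = lam f - lam g := by
  simp [lam, Finset.sum_sub_distrib]

theorem lam_zero : lam (0 : MvPolynomial (Tau r) k) = 0 := by simp [lam]

/-- the largest ideal contained in the kernel of `lam` -/
noncomputable def JL (r : ℕ) (k : Type) [Field k] : Ideal (MvPolynomial (Tau r) k) where
  carrier := {f | ∀ h, lam (f * h) = 0}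
  add_mem' := by
    intro a b ha hb h
    rw [add_mul, lam_add, ha h, hb h, add_zero]
  zero_mem' := by
    intro h
    rw [zero_mul, lam_zero]
  smul_mem' := by
    intro c a ha h
    have : c • a * h = a * (c * h) := by rw [smul_eq_mul]; ring
    rw [this]
    exact ha _

theorem mem_JL {f : MvPolynomial (Tau r) k} : f ∈ JL r k ↔ ∀ h, lam (f * h) = 0 := Iff.rfl

theorem sq_mem (a : Fin 4 × Fin r) :
    (X (Sum.inl a) : MvPolynomial (Tau r) k) * X (Sum.inl a) ∈ JL r k := by
  classical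
  rw [mem_JL]
  intro h
  unfold lam
  refine Finset.sum_eq_zero fun p _ => ?_
  rw [mul_assoc, coeff_X_mul']
  split_ifs with h1
  · rw [coeff_X_mul', if_neg]
    rw [Finsupp.mem_support_iff, not_not, Finsupp.tsub_apply, M2_inl]
    simp
  · rfl

theorem coeff_zz (p q q' : Fin r × Fin r) (h : MvPolynomial (Tau r) k) :
    coeff (M2 p) (X (Sum.inr q) * X (Sum.inr q') * h) =
      if q = p ∧ q' = p then coeff (M0 r) h else 0 := by
  classical
  rw [mul_assoc, coeff_X_mul']
  by_cases hq : q = p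
  · subst hq
    rw [if_pos (by rw [Finsupp.mem_support_iff, M2_inr]; simp), coeff_X_mul']
    by_cases hq' : q' = q
    · subst hq'
      rw [if_pos (by rw [Finsupp.mem_support_iff, Finsupp.tsub_apply, M2_inr]; simp)]
      rw [if_pos ⟨rfl, rfl⟩]
      congr 1
      ext t
      rcases t with a | t
      · simp [Finsupp.tsub_apply, M2_inl, M0_inl]
      · by_cases ht : t = q'
        · subst ht
          simp [Finsupp.tsub_apply, M2_inr, M0_inr]
        · have ht' : ¬ q' = t := fun h => ht h.symm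
          simp [Finsupp.tsub_apply, M2_inr, M0_inr, ht]
    · rw [if_neg, if_neg (fun hh => hq' hh.2)]
      rw [Finsupp.mem_support_iff, not_not, Finsupp.tsub_apply, M2_inr, if_neg hq']
      simp
  · rw [if_neg, if_neg (fun hh => hq hh.1)]
    rw [Finsupp.mem_support_iff, not_not, M2_inr, if_neg hq]

theorem lam_zz (q q' : Fin r × Fin r) (h : MvPolynomial (Tau r) k) :
    lam (X (Sum.inr q) * X (Sum.inr q') * h) = if q' = q then coeff (M0 r) h else 0 := by
  classical
  unfold lam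
  simp_rw [coeff_zz]
  split_ifs with hq
  · subst hq
    rw [Finset.sum_eq_single q']
    · simp
    · intro p _ hp
      rw [if_neg (fun hh => hp hh.1.symm)]
    · intro hh
      exact absurd (Finset.mem_univ q') hh
  · refine Finset.sum_eq_zero fun p _ => ?_
    rw [if_neg]
    rintro ⟨h1, h2⟩
    exact hq (h2.trans h1.symm)

theorem zz_mem (q0 q q' : Fin r × Fin r) :
    (X (Sum.inr q) : MvPolynomial (Tau r) k) * X (Sum.inr q') -
      (if q' = q then X (Sum.inr q0) * X (Sum.inr q0) else 0) ∈ JL r k := by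
  classical
  rw [mem_JL]
  intro h
  split_ifs with hq
  · rw [sub_mul, lam_sub, lam_zz, lam_zz, if_pos hq, if_pos rfl, sub_self]
  · rw [sub_zero, lam_zz, if_neg hq]

/-- the model values of the gates -/
noncomputable def pm (k : Type) [Field k] (q0 : Fin r × Fin r) :
    Fin 6 → MvPolynomial (Tau r) k :=
  ![∑ i, X (Sum.inl (0, i)) * ∑ j, X (Sum.inl (1, j)) * X (Sum.inr (i, j)),
    ∑ i, X (Sum.inl (2, i)) * ∑ j, X (Sum.inl (3, j)) * X (Sum.inr (i, j)),
    ∑ i, X (Sum.inl (0, i)) * X (Sum.inl (2, i)),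
    ∑ i, X (Sum.inl (1, i)) * X (Sum.inl (3, i)),
    (∑ i, X (Sum.inl (0, i)) * X (Sum.inl (2, i))) * ∑ i, X (Sum.inl (1, i)) * X (Sum.inl (3, i)),
    X (Sum.inr q0) * X (Sum.inr q0)]

/-- the model assignment -/
noncomputable def psi0 (b : ℕ) (q0 : Fin r × Fin r) : V r b → MvPolynomial (Tau r) k
  | none => 1
  | some (Sum.inl a) => X (Sum.inl a)
  | some (Sum.inr (Sum.inl (κ, i))) => ∑ j, X (Sum.inl (od κ, j)) * X (Sum.inr (i, j))
  | some (Sum.inr (Sum.inr (Sum.inl κ))) => pm k q0 κ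
  | some (Sum.inr (Sum.inr (Sum.inr (Sum.inl q)))) => X (Sum.inr q)
  | some (Sum.inr (Sum.inr (Sum.inr (Sum.inr _)))) => 0

theorem sum_identity {Q : Type} [CommRing Q] (x : Fin 4 → Fin r → Q) (z : Fin r → Fin r → Q)
    (t : Q) :
    (∑ i, x 0 i * ∑ j, x 1 j * z i j) * (∑ i, x 2 i * ∑ j, x 3 j * z i j) -
      t * ((∑ i, x 0 i * x 2 i) * ∑ i, x 1 i * x 3 i) =
    ∑ i, ∑ j, ∑ i', ∑ j', x 0 i * x 1 j * x 2 i' * x 3 j' *
      (z i j * z i' j' - if ((i', j') : Fin r × Fin r) = (i, j) then t else 0) := by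
  classical
  have hB : ∀ c : Q, c * (∑ i, x 2 i * ∑ j, x 3 j * z i j) =
      ∑ i', ∑ j', c * (x 2 i' * (x 3 j' * z i' j')) := by
    intro c
    rw [Finset.mul_sum]
    refine Finset.sum_congr rfl fun i' _ => ?_
    rw [Finset.mul_sum, Finset.mul_sum]
  have h1 : (∑ i, x 0 i * ∑ j, x 1 j * z i j) * (∑ i, x 2 i * ∑ j, x 3 j * z i j) =
      ∑ i, ∑ j, ∑ i', ∑ j', x 0 i * x 1 j * x 2 i' * x 3 j' * (z i j * z i' j') := by
    generalize hBB : (∑ i, x 2 i * ∑ j, x 3 j * z i j) = BB at hB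
    rw [Finset.sum_mul]
    refine Finset.sum_congr rfl fun i _ => ?_
    rw [Finset.mul_sum, Finset.sum_mul]
    refine Finset.sum_congr rfl fun j _ => ?_
    rw [hB]
    refine Finset.sum_congr rfl fun i' _ => ?_
    refine Finset.sum_congr rfl fun j' _ => ?_
    ring
  have h2 : t * ((∑ i, x 0 i * x 2 i) * ∑ i, x 1 i * x 3 i) =
      ∑ i, ∑ j, ∑ i', ∑ j', x 0 i * x 1 j * x 2 i' * x 3 j' *
        (if ((i', j') : Fin r × Fin r) = (i, j) then t else 0) := by
    rw [Finset.sum_mul, Finset.mul_sum]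
    refine Finset.sum_congr rfl fun i _ => ?_
    rw [Finset.mul_sum, Finset.mul_sum]
    refine Finset.sum_congr rfl fun j _ => ?_
    rw [Finset.sum_eq_single i, Finset.sum_eq_single j]
    · rw [if_pos rfl]; ring
    · intro j' _ hj'
      rw [if_neg (fun hh => hj' (congrArg Prod.snd hh)), mul_zero]
    · intro hh
      exact absurd (Finset.mem_univ j) hh
    · intro i' _ hi'
      refine Finset.sum_eq_zero fun j' _ => ?_
      rw [if_neg (fun hh => hi' (congrArg Prod.fst hh)), mul_zero]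
    · intro hh
      exact absurd (Finset.mem_univ i) hh
  rw [h1, h2, ← Finset.sum_sub_distrib]
  refine Finset.sum_congr rfl fun i _ => ?_
  rw [← Finset.sum_sub_distrib]
  refine Finset.sum_congr rfl fun j _ => ?_
  rw [← Finset.sum_sub_distrib]
  refine Finset.sum_congr rfl fun i' _ => ?_
  rw [← Finset.sum_sub_distrib]
  refine Finset.sum_congr rfl fun j' _ => ?_
  ring

section Values

variable {b : ℕ} (q0 : Fin r × Fin r)

theorem psi0_T : vT (psi0 (k := k) b q0) = 1 := rfl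
theorem psi0_x (κ : Fin 4) (i : Fin r) : vx (psi0 (k := k) b q0) κ i = X (Sum.inl (κ, i)) := rfl
theorem psi0_z (i j : Fin r) : vz (psi0 (k := k) b q0) i j = X (Sum.inr (i, j)) := rfl
theorem psi0_c (i j : Fin r) (l : Fin b) : vc (psi0 (k := k) b q0) i j l = 0 := rfl
theorem psi0_w (κ : Fin 2) (i : Fin r) : vw (psi0 (k := k) b q0) κ i =
    ∑ j, X (Sum.inl (od κ, j)) * X (Sum.inr (i, j)) := rfl
theorem psi0_m (κ : Fin 6) : vm (psi0 (k := k) b q0) κ = pm k q0 κ := rfl

end Values

theorem pm0 (q0 : Fin r × Fin r) : pm k q0 0 =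
    ∑ i, X (Sum.inl (0, i)) * ∑ j, X (Sum.inl (1, j)) * X (Sum.inr (i, j)) := rfl
theorem pm1 (q0 : Fin r × Fin r) : pm k q0 1 =
    ∑ i, X (Sum.inl (2, i)) * ∑ j, X (Sum.inl (3, j)) * X (Sum.inr (i, j)) := rfl
theorem pm2 (q0 : Fin r × Fin r) : pm k q0 2 =
    ∑ i, X (Sum.inl (0, i)) * X (Sum.inl (2, i)) := rfl
theorem pm3 (q0 : Fin r × Fin r) : pm k q0 3 =
    ∑ i, X (Sum.inl (1, i)) * X (Sum.inl (3, i)) := rfl
theorem pm4 (q0 : Fin r × Fin r) : pm k q0 4 =
    (∑ i, X (Sum.inl (0, i)) * X (Sum.inl (2, i))) *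
        ∑ i, X (Sum.inl (1, i)) * X (Sum.inl (3, i)) := rfl
theorem pm5 (q0 : Fin r × Fin r) : pm k q0 5 = X (Sum.inr q0) * X (Sum.inr q0) := rfl

theorem gen_psi0_main {b : ℕ} (q0 : Fin r × Fin r) :
    vm (psi0 (k := k) b q0) 0 * vm (psi0 (k := k) b q0) 1 -
      vm (psi0 (k := k) b q0) 5 * vm (psi0 (k := k) b q0) 4 ∈ JL r k := by
  rw [psi0_m, psi0_m, psi0_m, psi0_m, pm0, pm1, pm5, pm4,
    sum_identity (fun κ i => (X (Sum.inl (κ, i)) : MvPolynomial (Tau r) k))
        (fun i j => X (Sum.inr (i, j)))]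
  refine Submodule.sum_mem _ fun i _ => Submodule.sum_mem _ fun j _ =>
    Submodule.sum_mem _ fun i' _ => Submodule.sum_mem _ fun j' _ => ?_
  exact Ideal.mul_mem_left _ _ (zz_mem q0 (i, j) (i', j'))

theorem gen_psi0 {b : ℕ} (q0 : Fin r × Fin r) (g : G r b) :
    gen (psi0 (k := k) b q0) g ∈ JL r k := by
  classical
  rcases g with ⟨κ, i⟩ | ⟨κ, i⟩ | κ | l
  · simp only [gen]
    rw [psi0_x]
    exact sq_mem (κ, i)
  · simp only [gen, psi0_x, psi0_z, psi0_w, psi0_T, one_mul, sub_self]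
    exact Submodule.zero_mem _
  · simp only [gen]
    split_ifs
    · simp only [psi0_x, psi0_w, psi0_m, pm0, psi0_T, one_mul]
      have : od 0 = 1 := by simp [od]
      rw [this, sub_self]
      exact Submodule.zero_mem _
    · simp only [psi0_x, psi0_w, psi0_m, pm1, psi0_T, one_mul]
      have : od 1 = 3 := by simp [od]
      rw [this, sub_self]
      exact Submodule.zero_mem _
    · simp only [psi0_x, psi0_m, pm2, psi0_T, one_mul, sub_self]
      exact Submodule.zero_mem _
    · simp only [psi0_x, psi0_m, pm3, psi0_T, one_mul, sub_self]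
      exact Submodule.zero_mem _
    · rw [psi0_m, psi0_m, psi0_m, pm2, pm3, pm4, psi0_T, one_mul, sub_self]
      exact Submodule.zero_mem _
    · exact gen_psi0_main q0
  · simp only [gen, psi0_z, psi0_c, mul_zero, Finset.sum_const_zero]
    exact Submodule.zero_mem _

theorem prod_X (κ : Fin 4) : (∏ i : Fin r, (X (Sum.inl (κ, i)) : MvPolynomial (Tau r) k)) =
    monomial (∑ i : Fin r, Finsupp.single (Sum.inl (κ, i)) 1) 1 := by
  rw [monomial_sum_one]
  rfl

theorem coeff_sg : coeff (M0 r) (sg (fun κ i => (X (Sum.inl (κ, i)) : MvPolynomial (Tau r) k))) =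
    1 := by
  classical
  unfold sg
  simp only [prod_X, monomial_mul, mul_one]
  rw [coeff_monomial, if_pos]
  ext t
  rcases t with ⟨κ, i⟩ | q
  · rw [M0_inl]
    fin_cases κ <;> simp [Finsupp.single_apply, Finset.sum_ite_eq']
  · rw [M0_inr]
    simp [Finsupp.single_apply]

theorem socle_not_mem (q0 : Fin r × Fin r) :
    sg (fun κ i => (X (Sum.inl (κ, i)) : MvPolynomial (Tau r) k)) *
      (X (Sum.inr q0) * X (Sum.inr q0)) ∉ JL r k := by
  intro h
  have h1 := mem_JL.1 h 1
  rw [mul_one, mul_comm, lam_zz, if_pos rfl, coeff_sg] at h1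
  exact one_ne_zero h1

end Pool.Agent.H607R3.PD
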